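import Pool.Agent.P.MP_2cea5e_gt.AllB
import Pool.Agent.P.MP_2cea5e_gt.Abs.Asm
import Pool.Agent.P.MP_2cea5e_gt.Abs.Tens
import Pool.Agent.P.MP_2cea5e_gt.Abs.Fan
import Pool.Agent.P.MP_2cea5e_gt.Abs.Srf
import Pool.Agent.P.MP_2cea5e_gt.Se.All

/-!
Long time existence of the Calabi flow on compact toric surfaces.
-/

open scoped ContDiff

namespace Pool.Agent.Results.MP_2cea5e_gt.LongTimeAll

open Pool.Agent.P.MP_2cea5e_gt

theorem result : ∀ (M : Type) [TopologicalSpace M] [T2Space M] [CompactSpace M]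
    [ChartedSpace C2 M] [MulAction C2ˣ M] (h₀ : Srf.Met C2 M) (κ : ℝ),
    Srf.IsTorusSurface M → Srf.IsInvKaehler h₀ → 0 < κ →
    ∃ h : ℝ → Srf.Met C2 M, h 0 = h₀ ∧ (∀ t, 0 ≤ t → Srf.IsInvKaehler (h t)) ∧
      ∀ e ∈ atlas C2 M,
        (∀ j k, ContDiffOn ℝ ∞ (fun q : ℝ × C2 => (h q.1).comp e q.2 j k)
          (Set.Ici 0 ×ˢ e.target)) ∧
        ∀ t, 0 ≤ t → ∀ z ∈ e.target, ∀ j k,
          HasDerivWithinAt (fun s => (h s).comp e z j k)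
            ((κ : ℂ) * hess (scalG ((h t).comp e)) z j k) (Set.Ici 0) t := by
  intro M _ _ _ _ _ h₀ κ hM hK hκ
  have := hM.holo
  have := hM.act
  have := hM.eff
  have hK' : IsInvKaehler h₀ := ⟨hK.smooth, hK.pos, hK.closed, hK.inv⟩
  have key : Se.Concl M h₀ κ := by
    by_cases hq : ∃ q : M, ∀ θ : C2ˣ, Srf.InT θ → θ • q = q
    · exact Abs.abs_of Abs.tens_ok Abs.fan_ok final_all M h₀ κ hM.dense hq hK' hκ
    · refine Se.serre h₀ κ hM.dense (fun q => ?_) hK' hκ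
      by_contra hc
      exact hq ⟨q, fun θ hθ => not_not.1 fun h => hc ⟨θ, hθ, h⟩⟩
  obtain ⟨h, h0, h1, h2⟩ := key
  exact ⟨h, h0, fun t ht => ⟨(h1 t ht).smooth, (h1 t ht).pos, (h1 t ht).closed, (h1 t ht).inv⟩, h2⟩

end Pool.Agent.Results.MP_2cea5e_gt.LongTimeAll
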